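import Pool.Agent.Y254.HK.Stm

/-!
# Project HK (helper254): the statements `S_B2` and `S_C1`

Written by helper638 (job HK-B2C1).
-/

set_option autoImplicit false

open Finset
open scoped Classical

namespace Pool.Agent.Y638.HK
open Pool.Agent.W904.AK Pool.Agent.W46.HD Pool.Agent.W46.HM Pool.Agent.Y244.HM
  Pool.Agent.W597.HD Pool.Agent.Y254HK

/-- A fact `H (f₀, g) ≤ H f₀ + E` holds for every `f` that determines `f₀`. -/
theorem lift {Θ α β γ δ : Type} [Fintype Θ] {q : Θ → ℝ} (hq : IsLaw q) {f₀ : Θ → α} {g : Θ → β}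
    {f : Θ → γ} {k : Θ → δ} {E : ℝ} (h : H q (fun z => (f₀ z, g z)) ≤ H q f₀ + E)
    (hf : Det q f f₀) (hk : Det q (fun z => (f z, g z)) k) : H q k ≤ H q f + E := by
  have h1 := submod' hq (f := f) (g := fun z => (f₀ z, g z)) (h := f₀) (k := k) hf
    (Det.fst q f₀ g) (by
      intro x y hx hy e
      simp only [Prod.mk.injEq] at e
      exact hk x y hx hy (Prod.ext e.1 e.2.2))
  linarith

/-- Adding a height costs at most `log n`. -/
theorem add_height {Θ γ δ : Type} [Fintype Θ] {n : ℕ} {q : Θ → ℝ} (hq : IsLaw q)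
    (s : Θ → Fin n) {f : Θ → γ} {k : Θ → δ}
    (hk : Det q (fun z => (f z, s z)) k) : H q k ≤ H q f + Real.log n :=
  (subadd hq hk).trans (by linarith [H_height hq s])

/-- The simple bound for the entropy of `v`, `s1` given `l2` and `G`. -/
theorem t_b2 : S_B2 := by
  intro d b hb
  refine ⟨1, zero_le_one, ?_⟩
  intro n Ω iΩ A D hfam p S E C0 hp Θ iΘ q l1 l2 l3 s0 s1 t t' τ v hc hg hE hC0 hO
  have hq := hc.law
  have f9 := hg.f9
  unfold F9 at f9
  obtain ⟨M, hM⟩ : ∃ M : Θ → ℤ, M = MM s0 s1 t t' τ v := ⟨_, rfl⟩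
  obtain ⟨W, hW⟩ : ∃ W : Θ → ℤ × (Fin d → ℤ), W = WW A D l2 l3 s0 s1 t t' τ v := ⟨_, rfl⟩
  obtain ⟨Z, hZ⟩ : ∃ Z : Θ → ℤ × (Fin d → ℤ), Z = XX A D l1 l3 s0 s1 t t' := ⟨_, rfl⟩
  have hWd : ∀ x y, v x = v y → M x = M y → l2 x = l2 y → l3 x = l3 y → W x = W y := by
    intro x y h1 h2 h3 h4
    rw [hM] at h2
    simp only [hW, WW, h1, h2, h3, h4]
  unfold wG
  rw [← hW, ← hZ] at f9
  rw [← hM, ← hW, ← hZ]
  -- adding the heights `v` and `τ`
  have a1 : H q (fun z => (l2 z, W z, v z)) ≤ H q (fun z => (l2 z, W z)) + Real.log n :=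
    add_height hq v (by intro x y _ _ e; simp only [Prod.mk.injEq] at e ⊢; tauto)
  have a2 : H q (fun z => (l2 z, W z, v z, τ z)) ≤ H q (fun z => (l2 z, W z, v z)) + Real.log n :=
    add_height hq τ (by intro x y _ _ e; simp only [Prod.mk.injEq] at e ⊢; tauto)
  -- `z` given `l2`, `W`, `v`, `τ`
  have a3 := submod' hq (f := fun z => (l2 z, W z, v z, τ z)) (g := fun z => (l2 z, W z, τ z, (Z z).1))
    (h := fun z => (l2 z, W z, τ z)) (k := fun z => (l2 z, W z, v z, τ z, (Z z).1))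
    (by intro x y _ _ e; simp only [Prod.mk.injEq] at e ⊢; tauto)
    (by intro x y _ _ e; simp only [Prod.mk.injEq] at e ⊢; tauto)
    (by intro x y _ _ e; simp only [Prod.mk.injEq] at e ⊢; tauto)
  -- `s1`
  have a4 : H q (fun z => (l2 z, W z, v z, s1 z, τ z)) ≤
      H q (fun z => (l2 z, W z, v z, τ z, (Z z).1)) + E :=
    lift hq f9 (by
      intro x y _ _ e
      simp only [Prod.mk.injEq] at e ⊢
      obtain ⟨_, e2, e3, e4, e5⟩ := e
      exact ⟨e3, e4, by rw [e2], e5⟩)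
      (by intro x y _ _ e; simp only [Prod.mk.injEq] at e ⊢; tauto)
  -- `τ`
  have a5 := submod' hq (f := fun z => (l2 z, W z, v z, s1 z, τ z))
    (g := fun z => (l1 z, l2 z, l3 z, s0 z, s1 z, v z, M z))
    (h := fun z => (l2 z, W z, v z, s1 z))
    (k := fun z => (l1 z, l2 z, l3 z, s0 z, s1 z, v z, M z, τ z))
    (by intro x y _ _ e; simp only [Prod.mk.injEq] at e ⊢; tauto)
    (by
      intro x y _ _ e
      simp only [Prod.mk.injEq] at e ⊢
      obtain ⟨e1, e2, e3, e4, e5, e6, e7⟩ := e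
      exact ⟨e2, hWd x y e6 e7 e2 e3, e6, e5⟩)
    (by intro x y _ _ e; simp only [Prod.mk.injEq] at e ⊢; tauto)
  linarith

/-- The third inequality. -/
theorem t_c1' : S_C1 := by
  intro d b hb
  refine ⟨3, by norm_num, ?_⟩
  intro n Ω iΩ A D hfam p S E C0 hp Θ iΘ q l1 l2 l3 s0 s1 t t' τ v hc hg hE hC0 hO
  have hq := hc.law
  have g6 := hg.fa.g6
  have g5 := hg.fa.g5
  have c3 := hg.fa.c3
  have f3 := hc.f3
  have mar2 := hc.mar2
  have pq := hc.pq
  have hv := hc.hv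
  obtain ⟨Y, hY⟩ : ∃ Y : Θ → ℤ, Y = YY s0 s1 t t' := ⟨_, rfl⟩
  have hY' : ∀ z, yy (s0 z) (s1 z) (t z) (t' z) = Y z := fun z => by rw [hY]; rfl
  obtain ⟨M, hM⟩ : ∃ M : Θ → ℤ, M = MM s0 s1 t t' τ v := ⟨_, rfl⟩
  obtain ⟨W, hW⟩ : ∃ W : Θ → ℤ × (Fin d → ℤ), W = WW A D l2 l3 s0 s1 t t' τ v := ⟨_, rfl⟩
  obtain ⟨V, hV⟩ : ∃ V : Θ → (Fin d → ℤ), V = fun z => cell A D (v z) (l2 z) := ⟨_, rfl⟩
  have hV' : ∀ z, cell A D (v z) (l2 z) = V z := fun z => by rw [hV]
  have hVd : ∀ x y, v x = v y → l2 x = l2 y → V x = V y := by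
    intro x y h1 h2
    simp only [hV, h1, h2]
  have hWM : ∀ x y, W x = W y → v x = v y → M x = M y := by
    intro x y h1 h2
    have h3 := congrArg Prod.fst h1
    simp only [hW, WW, ← hM, h2] at h3
    linarith
  unfold wT wG
  simp only [hV'] at c3 mar2 pq hv
  simp only [hY']
  rw [← hY] at g5 g6
  rw [← hM] at g5 
  rw [← hW] at c3
  rw [← hM, ← hW]
  -- the heights
  have b1 : H q (fun z => (l1 z, l2 z, l3 z, s0 z, s1 z, v z, t z, τ z, t' z)) ≤
      H q (fun z => (l1 z, l2 z, l3 z, s0 z, s1 z, v z, M z, τ z, Y z, t z)) + E :=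
    lift hq g6 (by intro x y _ _ e; simp only [Prod.mk.injEq] at e ⊢; tauto)
      (by intro x y _ _ e; simp only [Prod.mk.injEq] at e ⊢; tauto)
  have b2 := submod' hq (f := fun z => (l1 z, l2 z, l3 z, s0 z, s1 z, v z, M z, τ z, Y z))
    (g := fun z => (l1 z, l3 z, s0 z, s1 z, Y z, t z))
    (h := fun z => (l1 z, l3 z, s0 z, s1 z, Y z))
    (k := fun z => (l1 z, l2 z, l3 z, s0 z, s1 z, v z, M z, τ z, Y z, t z))
    (by intro x y _ _ e; simp only [Prod.mk.injEq] at e ⊢; tauto)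
    (by intro x y _ _ e; simp only [Prod.mk.injEq] at e ⊢; tauto)
    (by intro x y _ _ e; simp only [Prod.mk.injEq] at e ⊢; tauto)
  have b3 : H q (fun z => (l1 z, l2 z, l3 z, s0 z, s1 z, v z, M z, τ z, Y z)) ≤
      H q (fun z => (l1 z, l2 z, l3 z, s0 z, s1 z, v z, M z, τ z)) + E :=
    lift hq g5 (by intro x y _ _ e; simp only [Prod.mk.injEq] at e ⊢; tauto)
      (by intro x y _ _ e; simp only [Prod.mk.injEq] at e ⊢; tauto)
  -- `M` given `l3`, `v`, `V`
  have b4 := submod' hq (f := fun z => (l3 z, v z, V z, M z))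
    (g := fun z => (l1 z, l2 z, l3 z, s0 z, s1 z, v z))
    (h := fun z => (l3 z, v z, V z))
    (k := fun z => (l1 z, l2 z, l3 z, s0 z, s1 z, v z, M z))
    (by intro x y _ _ e; simp only [Prod.mk.injEq] at e ⊢; tauto)
    (by
      intro x y _ _ e
      simp only [Prod.mk.injEq] at e ⊢
      obtain ⟨e1, e2, e3, e4, e5, e6⟩ := e
      exact ⟨e3, e6, hVd x y e6 e2⟩)
    (by intro x y _ _ e; simp only [Prod.mk.injEq] at e ⊢; tauto)
  have b5 : H q (fun z => (s0 z, v z, V z, l3 z)) ≤ H q (fun z => (l3 z, v z, V z)) + Real.log n :=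
    add_height hq s0 (by intro x y _ _ e; simp only [Prod.mk.injEq] at e ⊢; tauto)
  have b6 : H q (fun z => (l3 z, v z, V z, M z)) ≤ H q (fun z => ((W z, v z, V z), l3 z)) :=
    H_mono hq (by
      intro x y _ _ e
      simp only [Prod.mk.injEq] at e ⊢
      obtain ⟨⟨e1, e2, e3⟩, e4⟩ := e
      exact ⟨e4, e2, e3, hWM x y e1 e2⟩)
  have b7 : H q (fun z => (W z, v z, V z)) ≤ H q W + H q (fun z => (v z, V z)) :=
    subadd hq (Det.refl q _)
  have b8 := H_height hq v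
  linarith

/-- The third inequality, in the form of the job. -/
theorem t_c1 (_ : S_W) : S_C1 := t_c1'

end Pool.Agent.Y638.HK
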